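import Pool.Agent.P.MP_ab3ecb_nt.TP.Rat
import Pool.Agent.P.MP_ab3ecb_nt.TP.Stmt

/-! A finite form of the theorem of Furstenberg, and the gap between two good approximations. -/

namespace Pool.Agent.P.MP_ab3ecb_nt.IS

open Filter Topology TP

/-- The number `x` is within `c / D` of a fraction with denominator the factorial of `c`. -/
def Nr (c : ℕ) (x D : ℝ) : Prop := ∃ z : ℤ, |x - z / c.factorial| * D ≤ c

lemma nr_of {c N : ℕ} {x D : ℝ} {z : ℤ} (hN : 0 < N) (h1 : N ≤ c) (h : |x - z / N| * D ≤ c) :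
    Nr c x D := by
  obtain ⟨m, hm⟩ := Nat.dvd_factorial hN h1
  have m0 : (m : ℝ) ≠ 0 := fun e => c.factorial_ne_zero (by rw [hm, Nat.cast_eq_zero.1 e, mul_zero])
  refine ⟨z * m, ?_⟩
  rw [hm]
  push_cast
  rwa [mul_div_mul_right _ _ m0]

lemma Nr.shift {c N : ℕ} {x D : ℝ} {z : ℤ} (hN : 0 < N) (h1 : N ≤ c) (h : Nr c (x - z / N) D) :
    Nr c x D := by
  obtain ⟨m, hm⟩ := Nat.dvd_factorial hN h1
  have m0 : (m : ℝ) ≠ 0 := fun e => c.factorial_ne_zero (by rw [hm, Nat.cast_eq_zero.1 e, mul_zero])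
  have N0 : (N : ℝ) ≠ 0 := by positivity
  obtain ⟨w, hw⟩ := h
  refine ⟨w + z * m, ?_⟩
  rw [hm] at hw ⊢
  convert hw using 3
  push_cast
  field_simp
  ring

lemma prop {c : ℕ} {δ w : ℝ} (hc : c * δ ≤ 1 / 2) (n : ℕ)
    (h : ∀ i ≤ n, ‖((c ^ i * w : ℝ) : UnitAddCircle)‖ < δ) (h0 : |w| < δ) : |c ^ n * w| < δ := by
  induction n with
  | zero => simpa using h0
  | succ n ih =>
    have h1 := ih fun i hi => h i (hi.trans n.le_succ)
    have h2 : |(c : ℝ) ^ (n + 1) * w| ≤ |(1 : ℝ)| / 2 := by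
      rw [pow_succ', mul_assoc, abs_mul, Nat.abs_cast, abs_one]
      exact (mul_le_mul_of_nonneg_left h1.le c.cast_nonneg).trans hc
    rw [← (AddCircle.norm_coe_eq_abs_iff (1 : ℝ) one_ne_zero).2 h2]
    exact h _ le_rfl

lemma far {t y η : ℝ} : η / 2 ≤ dist (t : UnitAddCircle) ((y + η / 2 : ℝ) : UnitAddCircle) ↔
    ∀ z : ℤ, t + z ∉ Set.Ioo y (y + η) := by
  rw [dist_eq_norm, ← AddCircle.coe_sub, UnitAddCircle.norm_eq]
  constructor
  · intro h z hz
    have h1 := round_le (t - (y + η / 2)) (-z)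
    have h2 : |t - (y + η / 2) - (-z : ℤ)| < η / 2 := by
      push_cast
      rw [abs_lt]
      constructor <;> linarith [hz.1, hz.2]
    linarith
  · intro h
    by_contra h1
    rw [not_le, abs_lt] at h1
    exact h (-round (t - (y + η / 2))) ⟨by push_cast; linarith, by push_cast; linarith⟩

lemma ef0 {a b : ℕ} (ha : 1 < a) (hb : 1 < b) (hab : a.Coprime b) {η : ℝ} (hη : 0 < η) :
    ∃ N L : ℕ, 0 < N ∧ ∀ (x y : ℝ) (U V : ℕ), (∀ u ≤ U + L, ∀ v ≤ V + L, ∀ z : ℤ,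
      (a : ℝ) ^ u * b ^ v * x + z ∉ Set.Ioo y (y + η)) →
      ∃ z : ℤ, |N * x - z| * (a ^ U * b ^ V) ≤ 1 := by
  let K : ℕ → Set (UnitAddCircle × UnitAddCircle) := fun L =>
    {x | ∀ u ≤ L, ∀ v ≤ L, η / 2 ≤ dist ((a ^ u * b ^ v) • x.1) x.2}
  have kc : ∀ L, IsClosed (K L) := fun L => by
    simp only [K, Set.ofPred_forall]
    exact isClosed_iInter fun u => isClosed_iInter fun _ => isClosed_iInter fun v =>
      isClosed_iInter fun _ => isClosed_le continuous_const (by fun_prop)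
  have kd : Antitone K := fun L L' h x hx u hu v hv => hx u (hu.trans h) v (hv.trans h)
  have mem : ∀ x, x ∈ ⋂ L, K L ↔ ∀ u v, η / 2 ≤ dist ((a ^ u * b ^ v) • x.1) x.2 := fun x => by
    rw [Set.mem_iInter]
    exact ⟨fun h u v => h (u + v) u (by omega) v (by omega), fun h L u _ v _ => h u v⟩
  have rat : ∀ x ∈ Prod.fst '' ⋂ L, K L, ∀ t : ℝ, x = t → ¬ Irrational t := by
    rintro _ ⟨⟨x, y⟩, h, rfl⟩ t rfl ht
    obtain ⟨y, rfl⟩ := QuotientAddGroup.mk_surjective y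
    obtain ⟨i, j, k, h1⟩ := a_FUR a b t ha hb hab ht (y - η / 2) (y - η / 2 + η) (by linarith)
    have h2 := (mem _).1 h i j
    rw [← AddCircle.coe_nsmul, nsmul_eq_mul, show y = y - η / 2 + η / 2 by ring] at h2
    exact far.1 h2 k (by push_cast; exact h1)
  have fin : (Prod.fst '' ⋂ L, K L).Finite := by
    by_contra h
    have h1 := a_FURC a b ha hb hab _
      ((isClosed_iInter kc).isCompact.image continuous_fst).isClosed ?_ ?_ h
    · exact rat _ (h1 ▸ Set.mem_univ _) _ rfl irrational_sqrt_two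
    · rintro _ ⟨x, hx, rfl⟩
      refine ⟨(a • x.1, x.2), (mem _).2 fun u v => ?_, rfl⟩
      rw [smul_smul, mul_right_comm, ← pow_succ]
      exact (mem _).1 hx _ _
    · rintro _ ⟨x, hx, rfl⟩
      refine ⟨(b • x.1, x.2), (mem _).2 fun u v => ?_, rfl⟩
      rw [smul_smul, mul_assoc, ← pow_succ]
      exact (mem _).1 hx _ _
  have ord : ∀ x ∈ Prod.fst '' ⋂ L, K L, ∀ᶠ N : ℕ in atTop, N.factorial • x = 0 := fun x hx => by
    obtain ⟨t, rfl⟩ := QuotientAddGroup.mk_surjective x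
    obtain ⟨q, rfl⟩ := not_not.1 (rat _ hx t rfl)
    filter_upwards [eventually_ge_atTop q.den] with N hN
    obtain ⟨m, hm⟩ := Nat.dvd_factorial q.den_pos hN
    rw [hm, mul_comm, mul_smul, ← AddCircle.coe_nsmul, nsmul_eq_mul,
      show (q.den : ℝ) * q = q.num by exact_mod_cast Rat.den_mul_eq_num q,
      (AddCircle.coe_eq_zero_iff (1 : ℝ)).2 ⟨q.num, by simp⟩, smul_zero]
  obtain ⟨N, hN⟩ := ((eventually_all_finite fin).2 ord).exists
  have a1 : (1 : ℝ) < a := by exact_mod_cast ha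
  have b1 : (1 : ℝ) < b := by exact_mod_cast hb
  have d0 : (0 : ℝ) < 1 / (2 * a * b) := by positivity
  obtain ⟨L, hL⟩ := exists_subset_nhds_of_compactSpace (V := K) kd.directed_ge kc
    (U := {x | ‖N.factorial • x.1‖ < 1 / (2 * a * b)}) fun x hx =>
      (isOpen_lt (by fun_prop) continuous_const).mem_nhds (by
        rw [Set.mem_ofPred_eq, hN _ ⟨x, hx, rfl⟩, norm_zero]; exact d0)
  refine ⟨N.factorial, L, N.factorial_pos, fun x y U V h => ⟨round (N.factorial * x), ?_⟩⟩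
  set w := N.factorial * x - round (N.factorial * x) with hw
  have key : ∀ u ≤ U, ∀ v ≤ V, ‖((a ^ u * (b ^ v * w) : ℝ) : UnitAddCircle)‖ < 1 / (2 * a * b) :=
    fun u hu v hv => by
    have h1 := @hL (((a ^ u * b ^ v * x : ℝ) : UnitAddCircle), ((y + η / 2 : ℝ) : UnitAddCircle))
      fun u' hu' v' hv' => by
        rw [← AddCircle.coe_nsmul, far, nsmul_eq_mul]
        intro z
        have := h (u + u') (by omega) (v + v') (by omega) z
        push_cast
        rwa [show (a : ℝ) ^ u' * b ^ v' * (a ^ u * b ^ v * x) = a ^ (u + u') * b ^ (v + v') * x by ring]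
    rw [Set.mem_ofPred_eq, ← AddCircle.coe_nsmul, nsmul_eq_mul] at h1
    convert h1 using 2
    rw [← sub_eq_zero, ← AddCircle.coe_sub, AddCircle.coe_eq_zero_iff]
    refine ⟨-(a ^ u * b ^ v * round (N.factorial * x)), ?_⟩
    rw [hw, zsmul_eq_mul]
    push_cast
    ring
  have w0 : |w| < 1 / (2 * a * b) := by
    have h1 := key 0 zero_le 0 zero_le
    rw [pow_zero, pow_zero, one_mul, one_mul,
      (AddCircle.norm_coe_eq_abs_iff (1 : ℝ) one_ne_zero).2
        (by rw [abs_one]; exact abs_sub_round _)] at h1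
    exact h1
  have w1 := prop (c := b) (by rw [mul_one_div, div_le_div_iff₀ (by positivity) two_pos]; nlinarith)
    V (fun i hi => by simpa using key 0 zero_le i hi) w0
  have w2 := prop (c := a) (by rw [mul_one_div, div_le_div_iff₀ (by positivity) two_pos]; nlinarith)
    U (fun i hi => key i hi V le_rfl) w1
  rw [abs_mul, abs_mul, abs_of_pos (by positivity), abs_of_pos (by positivity)] at w2
  have w3 : 1 / (2 * (a : ℝ) * b) ≤ 1 := by rw [div_le_one (by positivity)]; nlinarith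
  linarith

/-- An orbit segment that misses an interval starts very close to a fraction. -/
lemma ef {p q n : ℕ} (hp : 1 < p) (hq : 1 < q) (hpq : p.Coprime q) (hn : 0 < n) {η : ℝ}
    (hη : 0 < η) : ∀ᶠ c : ℕ in atTop, ∀ (x y : ℝ) (j k : ℕ), c ≤ j → c ≤ k →
      (∀ u v, 0 < u → 0 < v → n * u + 2 ≤ j → n * v ≤ k → ∀ z : ℤ,
        (p ^ (n * u) * q ^ (n * v) : ℕ) * x + z ∉ Set.Ioo y (y + η)) →
      Nr c x (p ^ j * q ^ k) := by
  obtain ⟨N, L, hN, h⟩ := ef0 (Nat.one_lt_pow hn.ne' hp) (Nat.one_lt_pow hn.ne' hq)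
    (hpq.pow n n) hη
  filter_upwards [eventually_ge_atTop (n * (L + 3)), eventually_ge_atTop (N * (p ^ n * q ^ n)),
    eventually_ge_atTop ((p ^ n * q ^ n) ^ (L + 4))] with c c1 c2 c3 x y j k hj hk hm
  have sp : ∀ j, c ≤ j → ∃ U, n * (U + L + 1) + 2 ≤ j ∧ j ≤ n * U + n * (L + 4) := fun j hj => by
    obtain ⟨U, hU⟩ := Nat.exists_eq_add_of_le ((Nat.le_div_iff_mul_le hn).2
      ((mul_comm n (L + 3)).symm.le.trans (c1.trans hj)))
    have h1 := Nat.div_add_mod j n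
    have h2 := Nat.mod_lt j hn
    rw [hU] at h1
    have h3 : n * (L + 3 + U) = n * (U + L + 1) + 2 * n := by ring
    have h4 : n * (L + 3 + U) + n = n * U + n * (L + 4) := by ring
    exact ⟨U, by omega, by omega⟩
  obtain ⟨U, u1, u2⟩ := sp j hj
  obtain ⟨V, v1, v2⟩ := sp k hk
  obtain ⟨z, hz⟩ := h ((p ^ n * q ^ n : ℕ) * x) y U V fun u hu v hv z => by
    have := hm (u + 1) (v + 1) u.succ_pos v.succ_pos (by nlinarith) (by nlinarith) z
    convert this using 3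
    push_cast
    ring
  have p1 : (1 : ℝ) ≤ p := by exact_mod_cast hp.le
  have q1 : (1 : ℝ) ≤ q := by exact_mod_cast hq.le
  have M1 : 0 < N * (p ^ n * q ^ n) := by positivity
  refine nr_of (z := z) M1 c2 ?_
  have M2 : (1 : ℝ) ≤ (N * (p ^ n * q ^ n) : ℕ) := by exact_mod_cast M1
  have e1 : |x - z / (N * (p ^ n * q ^ n) : ℕ)| ≤ |N * ((p ^ n * q ^ n : ℕ) * x) - z| := by
    rw [sub_div' (by positivity), abs_div, Nat.abs_cast]
    refine (div_le_self (abs_nonneg _) M2).trans (le_of_eq ?_)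
    push_cast
    ring_nf
  have e2 : (p : ℝ) ^ j * q ^ k ≤ ((p ^ n : ℕ) ^ U * (q ^ n : ℕ) ^ V) * c := by
    have c4 : (((p ^ n * q ^ n) ^ (L + 4) : ℕ) : ℝ) ≤ c := by exact_mod_cast c3
    refine (mul_le_mul (pow_le_pow_right₀ p1 u2) (pow_le_pow_right₀ q1 v2) (by positivity)
      (by positivity)).trans (le_trans (le_of_eq ?_) (mul_le_mul_of_nonneg_left c4 (by positivity)))
    push_cast
    ring
  refine (mul_le_mul e1 e2 (by positivity) (abs_nonneg _)).trans ?_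
  rw [← mul_assoc]
  exact mul_le_of_le_one_left c.cast_nonneg hz

/-- Two approximations which are too close to each other. -/
lemma gap {ξ : ℝ} (hξ : Irrational ξ) {p q r : ℕ} (hp : 0 < p) (hq : 0 < q) (hpq : p.Coprime q)
    (hr : 1 < r) (c : ℕ) : ∀ᶠ L : ℕ in atTop, ∀ i j : ℕ, Nr c (p ^ i * ξ) (q ^ j * r ^ L) →
      ¬ Nr c (q ^ j * ξ) (p ^ i * r ^ L) := by
  have r1 : (1 : ℝ) < r := by exact_mod_cast hr
  have t1 := tendsto_pow_atTop_atTop_of_one_lt r1
  obtain ⟨ε, hε, h⟩ := (hξ.eventually_forall_le_dist_cast_div c.factorial).exists_gt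
  filter_upwards [t1.eventually_gt_atTop (2 * c * c.factorial), t1.eventually_gt_atTop (c / ε)]
    with L l1 l2 i j ⟨z, hz⟩ ⟨w, hw⟩
  have f0 : (0 : ℝ) < c.factorial := by exact_mod_cast c.factorial_pos
  have R0 : (0 : ℝ) < r ^ L := by positivity
  have P1 : (1 : ℝ) ≤ p ^ i := one_le_pow₀ (by exact_mod_cast hp)
  have Q1 : (1 : ℝ) ≤ q ^ j := one_le_pow₀ (by exact_mod_cast hq)
  have e : z * (q : ℤ) ^ j = w * (p : ℤ) ^ i := by
    rw [← sub_eq_zero, ← Int.abs_lt_one_iff]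
    have e1 : ((z * (q : ℤ) ^ j - w * (p : ℤ) ^ i : ℤ) : ℝ) = c.factorial *
        ((q ^ j * ξ - w / c.factorial) * p ^ i - (p ^ i * ξ - z / c.factorial) * q ^ j) := by
      push_cast
      field_simp
      ring
    have e2 : |((z * (q : ℤ) ^ j - w * (p : ℤ) ^ i : ℤ) : ℝ)| * r ^ L ≤ 2 * c * c.factorial := by
      rw [e1, abs_mul, abs_of_pos f0, mul_assoc, mul_comm]
      refine mul_le_mul_of_nonneg_right ((mul_le_mul_of_nonneg_right (abs_sub _ _) R0.le).trans ?_)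
        f0.le
      rw [abs_mul, abs_mul, abs_of_pos (zero_lt_one.trans_le P1),
        abs_of_pos (zero_lt_one.trans_le Q1)]
      linarith
    have e3 := lt_of_mul_lt_mul_right ((e2.trans_lt l1).trans_eq (one_mul _).symm) R0.le
    exact_mod_cast e3
  obtain ⟨m, rfl⟩ : (p : ℤ) ^ i ∣ z :=
    ((Nat.isCoprime_iff_coprime.2 hpq).pow (m := i) (n := j)).dvd_of_dvd_mul_right ⟨w, by
      rw [e, mul_comm]⟩
  have e4 := h m
  rw [Real.dist_eq] at e4
  push_cast at hz
  rw [mul_div_assoc, ← mul_sub, abs_mul, abs_of_pos (zero_lt_one.trans_le P1)] at hz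
  rw [div_lt_iff₀ hε] at l2
  have e5 : ε * r ^ L ≤ p ^ i * |ξ - m / c.factorial| * (q ^ j * r ^ L) :=
    mul_le_mul (e4.trans (le_mul_of_one_le_left (abs_nonneg _) P1))
      (le_mul_of_one_le_left R0.le Q1) R0.le (by positivity)
  linarith

end Pool.Agent.P.MP_ab3ecb_nt.IS
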